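import Mathlib

/-!
# Germs of `(4,6)`-distributions

Every germ of a `(4,6)`-distribution at a point of a 6-manifold is, in a chart, a germ at a point of
`ℝ⁶`, so the definitions are stated for `ℝ⁶`.
-/

namespace Pool.Agent.V11196.Hyp

open scoped ContDiff Topology

/-- `ℝ⁶`; the coordinates `0, 1, 2, 3, 4, 5` are called `x₁, y₁, z₁, x₂, y₂, z₂`. -/
abbrev E := Fin 6 → ℝ

/-- The exterior derivative `dα` of a 1-form, evaluated at `x` on the vectors `u`, `v`. -/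
noncomputable def dOne (α : E → E →L[ℝ] ℝ) (x u v : E) : ℝ :=
  fderiv ℝ α x u v - fderiv ℝ α x v u

/-- The value of the 4-form `w ∧ η` on the vectors `e 0, e 1, e 2, e 3`. -/
def wedge (w η : E → E → ℝ) (e : Fin 4 → E) : ℝ :=
  w (e 0) (e 1) * η (e 2) (e 3) - w (e 0) (e 2) * η (e 1) (e 3) + w (e 0) (e 3) * η (e 1) (e 2)
    + w (e 1) (e 2) * η (e 0) (e 3) - w (e 1) (e 3) * η (e 0) (e 2) + w (e 2) (e 3) * η (e 0) (e 1)

/-- `D` is, near `p`, the common kernel of the smooth and pointwise independent 1-forms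
`α 0`, `α 1`. -/
def IsCoframe (D : E → Submodule ℝ E) (p : E) (α : Fin 2 → E → E →L[ℝ] ℝ) : Prop :=
  (∀ i, ContDiffAt ℝ ∞ (α i) p) ∧
    ∀ᶠ x in 𝓝 p, LinearIndependent ℝ (fun i => α i x) ∧ ∀ v, v ∈ D x ↔ ∀ i, α i x v = 0

/-- `D` is the germ at `p` of a smooth rank 4 distribution of `ℝ⁶`. -/
def IsDistribution46 (D : E → Submodule ℝ E) (p : E) : Prop := ∃ α, IsCoframe D p α

/-- The germ of `D` at `p` is hyperbolic: near `p` the quadratic form
`ψ ↦ (ψ ∘ 𝓛) ∧ (ψ ∘ 𝓛)` on `(TM/D)*`, which in the basis `α 0, α 1` of `(TM/D)*` and with respect to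
a basis `e` of `D x` has the matrix `(dα_i ∧ dα_j) (e)`, has negative determinant. -/
def IsHyperbolic (D : E → Submodule ℝ E) (p : E) : Prop :=
  ∃ α, IsCoframe D p α ∧ ∀ᶠ x in 𝓝 p, ∃ e : Fin 4 → E, LinearIndependent ℝ e ∧ (∀ i, e i ∈ D x) ∧
    wedge (dOne (α 0) x) (dOne (α 0) x) e * wedge (dOne (α 1) x) (dOne (α 1) x) e
      - wedge (dOne (α 0) x) (dOne (α 1) x) e * wedge (dOne (α 1) x) (dOne (α 0) x) e < 0

/-- The germ of `D` at `p` admits Reeb directions. -/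
def AdmitsReebDirections (D : E → Submodule ℝ E) (p : E) : Prop :=
  ∃ (α : Fin 2 → E → E →L[ℝ] ℝ) (Z : Fin 2 → E → E), IsCoframe D p α ∧
    (∀ i, ContDiffAt ℝ ∞ (Z i) p) ∧ ∀ᶠ x in 𝓝 p,
      IsCompl (D x) (Submodule.span ℝ (Set.range fun i => Z i x)) ∧
      (∀ i j, α i x (Z j x) = if i = j then 1 else 0) ∧
      (∀ i j, ∀ v ∈ D x, dOne (α j) x (Z i x) v = 0) ∧
      VectorField.lieBracket ℝ (Z 0) (Z 1) x = 0

/-- The germs of `D` at `p` and of `D'` at `p'` are diffeomorphic: a diffeomorphism `φ` from an open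
neighbourhood of `p` onto an open neighbourhood of `p'` with `φ p = p'` carries `D` to `D'`. -/
def GermDiffeomorphic (D : E → Submodule ℝ E) (p : E) (D' : E → Submodule ℝ E) (p' : E) : Prop :=
  ∃ φ : OpenPartialHomeomorph E E, p ∈ φ.source ∧ φ p = p' ∧ ContDiffOn ℝ ∞ φ φ.source ∧
    ContDiffOn ℝ ∞ φ.symm φ.target ∧
    ∀ x ∈ φ.source, (D x).map (fderiv ℝ φ x : E →ₗ[ℝ] E) = D' (φ x)

/-- The flat hyperbolic distribution `ker (dz₁ - y₁ dx₁) ∩ ker (dz₂ - y₂ dx₂)`. -/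
def flatHyperbolic (x : E) : Submodule ℝ E where
  carrier := {v | v 2 - x 1 * v 0 = 0 ∧ v 5 - x 4 * v 3 = 0}
  add_mem' := by
    rintro a b ⟨h1, h2⟩ ⟨h3, h4⟩
    constructor <;> simp only [Pi.add_apply] <;> linarith
  zero_mem' := by simp
  smul_mem' := by
    rintro c a ⟨h1, h2⟩
    constructor <;> simp only [Pi.smul_apply, smul_eq_mul]
    · linear_combination c * h1
    · linear_combination c * h2

end Pool.Agent.V11196.Hyp
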