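import Pool.Agent.V11196.Hyp.Defs

namespace Pool.Agent.V11196.Hyp

open scoped ContDiff Topology

/-- The distribution `ker (dz₁ - y₁ dx₁ - x₂ y₂ dx₂) ∩ ker (dz₂ - y₂ dx₂)`. -/
def DD (x : E) : Submodule ℝ E where
  carrier := {v | v 2 - x 1 * v 0 - x 3 * x 4 * v 3 = 0 ∧ v 5 - x 4 * v 3 = 0}
  add_mem' := by
    rintro a b ⟨h1, h2⟩ ⟨h3, h4⟩
    constructor <;> simp only [Pi.add_apply] <;> linarith
  zero_mem' := by simp
  smul_mem' := by
    rintro c a ⟨h1, h2⟩
    constructor <;> simp only [Pi.smul_apply, smul_eq_mul]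
    · linear_combination c * h1
    · linear_combination c * h2

/-- coordinate forms -/
def dx (i : Fin 6) : E →L[ℝ] ℝ := ContinuousLinearMap.proj i

@[simp] lemma dx_apply (i : Fin 6) (v : E) : dx i v = v i := rfl

/-- the coframe -/
noncomputable def lam (i : Fin 2) (x : E) : E →L[ℝ] ℝ :=
  ![dx 2 - x 1 • dx 0 - (x 3 * x 4) • dx 3, dx 5 - x 4 • dx 3] i

lemma hasFDerivAt_coord (i : Fin 6) (x : E) : HasFDerivAt (fun y : E => y i) (dx i) x :=
  (dx i).hasFDerivAt

lemma lam0_hasFDerivAt (x : E) : HasFDerivAt (lam 0)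
    (- (dx 1).smulRight (dx 0) - (x 3 • dx 4 + x 4 • dx 3).smulRight (dx 3)) x := by
  have h1 : HasFDerivAt (fun y : E => y 1 • dx 0) ((dx 1).smulRight (dx 0)) x :=
    (hasFDerivAt_coord 1 x).smul_const (dx 0)
  have h2 : HasFDerivAt (fun y : E => (y 3 * y 4) • dx 3)
      ((x 3 • dx 4 + x 4 • dx 3).smulRight (dx 3)) x :=
    ((hasFDerivAt_coord 3 x).mul (hasFDerivAt_coord 4 x)).smul_const (dx 3)
  have h3 := ((hasFDerivAt_const (dx 2) x).sub h1).sub h2
  rw [zero_sub] at h3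
  exact h3

lemma lam1_hasFDerivAt (x : E) : HasFDerivAt (lam 1) (- (dx 4).smulRight (dx 3)) x := by
  have h1 : HasFDerivAt (fun y : E => y 4 • dx 3) ((dx 4).smulRight (dx 3)) x :=
    (hasFDerivAt_coord 4 x).smul_const (dx 3)
  have h3 := (hasFDerivAt_const (dx 5) x).sub h1
  rw [zero_sub] at h3
  exact h3

lemma dOne_lam0 (x u v : E) : dOne (lam 0) x u v
    = (u 0 * v 1 - u 1 * v 0) + x 3 * (u 3 * v 4 - u 4 * v 3) := by
  rw [dOne, (lam0_hasFDerivAt x).fderiv]
  simp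
  ring

lemma dOne_lam1 (x u v : E) : dOne (lam 1) x u v = u 3 * v 4 - u 4 * v 3 := by
  rw [dOne, (lam1_hasFDerivAt x).fderiv]
  simp
  ring

lemma isCoframe_lam (p : E) : IsCoframe DD p lam := by
  constructor
  · intro i
    have hc : ∀ i : Fin 6, ContDiff ℝ ∞ (fun y : E => y i) := fun i => (dx i).contDiff
    fin_cases i
    · show ContDiffAt ℝ ∞ (fun x : E => dx 2 - x 1 • dx 0 - (x 3 * x 4) • dx 3) p
      exact ((contDiff_const.sub ((hc 1).smul contDiff_const)).sub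
        (((hc 3).mul (hc 4)).smul contDiff_const)).contDiffAt
    · show ContDiffAt ℝ ∞ (fun x : E => dx 5 - x 4 • dx 3) p
      exact (contDiff_const.sub ((hc 4).smul contDiff_const)).contDiffAt
  · refine Filter.Eventually.of_forall fun x => ⟨?_, fun v => ?_⟩
    · rw [Fintype.linearIndependent_iff]
      intro g hg
      rw [Fin.sum_univ_two] at hg
      have h2 := congrArg (fun f : E →L[ℝ] ℝ => f (Pi.single 2 1)) hg
      have h5 := congrArg (fun f : E →L[ℝ] ℝ => f (Pi.single 5 1)) hg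
      simp [lam] at h2 h5
      intro i
      fin_cases i
      · exact h2
      · exact h5
    · show (v 2 - x 1 * v 0 - x 3 * x 4 * v 3 = 0 ∧ v 5 - x 4 * v 3 = 0) ↔ _
      rw [Fin.forall_fin_two]
      simp [lam]


/-- The frame of `D`. -/
def A1 (x : E) : E := ![1, 0, x 1, 0, 0, 0]
def B1 (_ : E) : E := ![0, 1, 0, 0, 0, 0]
def A2 (x : E) : E := ![0, 0, x 3 * x 4, 1, 0, x 4]
def B2 (_ : E) : E := ![0, 0, 0, 0, 1, 0]
/-- Vertical fields. -/
def V1 (_ : E) : E := ![0, 0, 1, 0, 0, 0]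
def W2 (x : E) : E := ![0, 0, x 3, 0, 0, 1]

lemma A1_mem (x : E) : A1 x ∈ DD x := by
  constructor <;> simp [A1]
lemma B1_mem (x : E) : B1 x ∈ DD x := by
  constructor <;> simp [B1]
lemma A2_mem (x : E) : A2 x ∈ DD x := by
  constructor <;> simp [A2]
lemma B2_mem (x : E) : B2 x ∈ DD x := by
  constructor <;> simp [B2]

lemma isHyperbolic : IsHyperbolic DD 0 := by
  refine ⟨lam, isCoframe_lam 0, Filter.Eventually.of_forall fun x => ?_⟩
  refine ⟨![A1 x, B1 x, A2 x, B2 x], ?_, ?_, ?_⟩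
  · rw [Fintype.linearIndependent_iff]
    intro g hg
    rw [Fin.sum_univ_four] at hg
    have h0 := congrFun hg 0
    have h1 := congrFun hg 1
    have h3 := congrFun hg 3
    have h4 := congrFun hg 4
    simp [A1, B1, A2, B2] at h0 h1 h3 h4
    intro i
    fin_cases i <;> assumption
  · intro i
    fin_cases i
    · exact A1_mem x
    · exact B1_mem x
    · exact A2_mem x
    · exact B2_mem x
  · simp [wedge, dOne_lam0, dOne_lam1, A1, B1, A2, B2]

lemma admitsReeb : AdmitsReebDirections DD 0 := by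
  refine ⟨lam, ![V1, fun _ => Pi.single 5 1], isCoframe_lam 0, ?_,
    Filter.Eventually.of_forall fun x => ⟨?_, ?_, ?_, ?_⟩⟩
  · intro i
    fin_cases i
    · exact contDiffAt_const
    · exact contDiffAt_const
  · have hr : (Set.range fun i => (![V1, fun _ => Pi.single 5 1] : Fin 2 → E → E) i x)
        = {V1 x, Pi.single 5 1} := by
      ext v
      simp [eq_comm, or_comm]
    rw [hr]
    constructor
    · rw [Submodule.disjoint_def]
      intro v hv hs
      rw [Submodule.mem_span_pair] at hs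
      obtain ⟨a, b, rfl⟩ := hs
      obtain ⟨h1, h2⟩ := hv
      simp [V1] at h1 h2
      subst h1 h2
      simp
    · rw [codisjoint_iff, eq_top_iff]
      intro v _
      have : v = (v - (v 2 - x 1 * v 0 - x 3 * x 4 * v 3) • V1 x
          - (v 5 - x 4 * v 3) • (Pi.single 5 1 : E))
          + ((v 2 - x 1 * v 0 - x 3 * x 4 * v 3) • V1 x
          + (v 5 - x 4 * v 3) • (Pi.single 5 1 : E)) := by abel
      rw [this]
      refine Submodule.add_mem_sup ?_ ?_
      · constructor <;> simp [V1, Matrix.vecHead, Matrix.vecTail] <;> ring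
      · exact Submodule.mem_span_pair.2 ⟨_, _, rfl⟩
  · intro i j
    fin_cases i <;> fin_cases j <;> simp [lam, V1]
  · intro i j v _
    fin_cases i <;> fin_cases j <;> simp [dOne_lam0, dOne_lam1, V1]
  · have h : (![V1, fun _ => Pi.single 5 1] : Fin 2 → E → E) 0 = fun _ => ![0, 0, 1, 0, 0, 0] := rfl
    have h' : (![V1, fun _ => Pi.single 5 1] : Fin 2 → E → E) 1 = fun _ => Pi.single 5 1 := rfl
    rw [h, h']
    simp [VectorField.lieBracket]

lemma two_le_inf : (2 : WithTop ℕ∞) ≤ ∞ := WithTop.coe_le_coe.2 (le_top : (2 : ℕ∞) ≤ ⊤)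

/-- The bracket formula. -/
lemma bracket_apply {F : E → ℝ} {x : E} (hF : ContDiffAt ℝ ∞ F x) {A B : E → E} {A' B' : E →L[ℝ] E}
    (hA : HasFDerivAt A A' x) (hB : HasFDerivAt B B' x) :
    fderiv ℝ (fun y => fderiv ℝ F y (B y)) x (A x) - fderiv ℝ (fun y => fderiv ℝ F y (A y)) x (B x)
      = fderiv ℝ F x (B' (A x) - A' (B x)) := by
  have hd : DifferentiableAt ℝ (fderiv ℝ F) x := by
    have := hF.fderiv_right (m := 1) (by norm_num; exact two_le_inf)
    exact this.differentiableAt (by norm_num)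
  have hsymm : IsSymmSndFDerivAt ℝ F x := hF.isSymmSndFDerivAt (by simp; exact two_le_inf)
  have h1 : HasFDerivAt (fun y => fderiv ℝ F y (B y))
      ((fderiv ℝ (fderiv ℝ F) x).flip (B x) + (fderiv ℝ F x).comp B') x := by
    have := hd.hasFDerivAt.clm_apply hB
    rwa [add_comm] at this
  have h2 : HasFDerivAt (fun y => fderiv ℝ F y (A y))
      ((fderiv ℝ (fderiv ℝ F) x).flip (A x) + (fderiv ℝ F x).comp A') x := by
    have := hd.hasFDerivAt.clm_apply hA
    rwa [add_comm] at this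
  rw [h1.fderiv, h2.fderiv]
  simp only [_root_.add_apply, ContinuousLinearMap.flip_apply,
    ContinuousLinearMap.comp_apply, map_sub]
  rw [hsymm.eq (A x) (B x)]
  ring


/-- Derivatives of the fields. -/
noncomputable def A1' : E →L[ℝ] E := (dx 1).smulRight (Pi.single 2 1)
noncomputable def A2' (x : E) : E →L[ℝ] E :=
  (x 3 • dx 4 + x 4 • dx 3).smulRight (Pi.single 2 1) + (dx 4).smulRight (Pi.single 5 1)
noncomputable def W2' : E →L[ℝ] E := (dx 3).smulRight (Pi.single 2 1)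

lemma A1_hasFDerivAt (x : E) : HasFDerivAt A1 A1' x := by
  have h : A1 = fun y => (Pi.single 0 1 : E) + y 1 • (Pi.single 2 1 : E) := by
    ext y i
    fin_cases i <;> simp [A1]
  rw [h]
  exact ((hasFDerivAt_coord 1 x).smul_const _).const_add _

lemma A2_hasFDerivAt (x : E) : HasFDerivAt A2 (A2' x) x := by
  have h : A2 = fun y => (Pi.single 3 1 : E) + ((y 3 * y 4) • (Pi.single 2 1 : E)
      + y 4 • (Pi.single 5 1 : E)) := by
    ext y i
    fin_cases i <;> simp [A2]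
  rw [h]
  exact ((((hasFDerivAt_coord 3 x).mul (hasFDerivAt_coord 4 x)).smul_const _).add
    ((hasFDerivAt_coord 4 x).smul_const _)).const_add _

lemma W2_hasFDerivAt (x : E) : HasFDerivAt W2 W2' x := by
  have h : W2 = fun y => (Pi.single 5 1 : E) + y 3 • (Pi.single 2 1 : E) := by
    ext y i
    fin_cases i <;> simp [W2]
  rw [h]
  exact ((hasFDerivAt_coord 3 x).smul_const _).const_add _

lemma const_hasFDerivAt (c : E) (x : E) : HasFDerivAt (fun _ : E => c) (0 : E →L[ℝ] E) x :=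
  hasFDerivAt_const c x

lemma br12 (x : E) : (0 : E →L[ℝ] E) (A1 x) - A1' (B1 x) = - V1 x := by
  ext i
  fin_cases i <;> simp [A1', B1, V1]

lemma br34 (x : E) : (0 : E →L[ℝ] E) (A2 x) - A2' x (B2 x) = - W2 x := by
  ext i
  fin_cases i <;> simp [A2', B2, W2]

lemma br13 (x : E) : A2' x (A1 x) - A1' (A2 x) = 0 := by
  ext i
  fin_cases i <;> simp [A2', A1', A1, A2]

lemma br14 (x : E) : (0 : E →L[ℝ] E) (A1 x) - A1' (B2 x) = 0 := by
  ext i
  fin_cases i <;> simp [A1', B2]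

lemma br23 (x : E) : A2' x (B1 x) - (0 : E →L[ℝ] E) (A2 x) = 0 := by
  ext i
  fin_cases i <;> simp [A2', B1]

lemma brW (x : E) : W2' (A2 x) - A2' x (W2 x) = V1 x := by
  ext i
  fin_cases i <;> simp [A2', W2', A2, W2, V1]

/-- If `F` is constant along `A2` and `B2`, then it is constant along `V1`. -/
lemma kill {U : Set E} (hU : IsOpen U) {F : E → ℝ} (hF : ∀ x ∈ U, ContDiffAt ℝ ∞ F x)
    (h1 : ∀ x ∈ U, fderiv ℝ F x (A2 x) = 0) (h2 : ∀ x ∈ U, fderiv ℝ F x (B2 x) = 0) :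
    ∀ x ∈ U, fderiv ℝ F x (V1 x) = 0 := by
  have z : ∀ (C : E → E), (∀ x ∈ U, fderiv ℝ F x (C x) = 0) → ∀ x ∈ U,
      fderiv ℝ (fun y => fderiv ℝ F y (C y)) x = 0 := by
    intro C hC x hx
    have : (fun y => fderiv ℝ F y (C y)) =ᶠ[𝓝 x] fun _ => 0 := by
      filter_upwards [hU.mem_nhds hx] with y hy
      exact hC y hy
    rw [this.fderiv_eq]
    simp
  have hW : ∀ x ∈ U, fderiv ℝ F x (W2 x) = 0 := by
    intro x hx
    have h := bracket_apply (hF x hx) (A2_hasFDerivAt x) (const_hasFDerivAt (B2 x) x)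
    rw [br34] at h
    have e1 := z B2 h2 x hx
    have e2 := z A2 h1 x hx
    have e1' : fderiv ℝ (fun y => fderiv ℝ F y (B2 x)) x = 0 := e1
    rw [e1', e2] at h
    simpa using h
  intro x hx
  have h := bracket_apply (hF x hx) (A2_hasFDerivAt x) (W2_hasFDerivAt x)
  rw [brW, z W2 hW x hx, z A2 h1 x hx] at h
  simpa using h.symm

/-- The bracket relation for a contact form `dZ - Y dX` which vanishes on `D`. -/
lemma mu_bracket {U : Set E} (hU : IsOpen U) {X Y Z : E → ℝ} (hX : ∀ x ∈ U, ContDiffAt ℝ ∞ X x)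
    (hY : ∀ x ∈ U, ContDiffAt ℝ ∞ Y x) (hZ : ∀ x ∈ U, ContDiffAt ℝ ∞ Z x)
    {A B : E → E} (hA : ∀ x ∈ U, fderiv ℝ Z x (A x) = Y x * fderiv ℝ X x (A x))
    (hB : ∀ x ∈ U, fderiv ℝ Z x (B x) = Y x * fderiv ℝ X x (B x)) {x : E} (hx : x ∈ U)
    {A' B' : E →L[ℝ] E} (hA' : HasFDerivAt A A' x) (hB' : HasFDerivAt B B' x) :
    fderiv ℝ Z x (B' (A x) - A' (B x)) - Y x * fderiv ℝ X x (B' (A x) - A' (B x))
      = fderiv ℝ Y x (A x) * fderiv ℝ X x (B x) - fderiv ℝ Y x (B x) * fderiv ℝ X x (A x) := by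
  have hz := bracket_apply (hZ x hx) hA' hB'
  have hx' := bracket_apply (hX x hx) hA' hB'
  have hd : DifferentiableAt ℝ (fderiv ℝ X) x := by
    have := (hX x hx).fderiv_right (m := 1) (by norm_num; exact two_le_inf)
    exact this.differentiableAt (by norm_num)
  have hYd : DifferentiableAt ℝ Y x := (hY x hx).differentiableAt (by simp)
  have e : ∀ (C : E → E), (∀ x ∈ U, fderiv ℝ Z x (C x) = Y x * fderiv ℝ X x (C x)) →
      DifferentiableAt ℝ C x → ∀ v, fderiv ℝ (fun y => fderiv ℝ Z y (C y)) x v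
        = Y x * fderiv ℝ (fun y => fderiv ℝ X y (C y)) x v + fderiv ℝ Y x v * fderiv ℝ X x (C x) := by
    intro C hC hCd v
    have h1 : (fun y => fderiv ℝ Z y (C y)) =ᶠ[𝓝 x] fun y => Y y * fderiv ℝ X y (C y) := by
      filter_upwards [hU.mem_nhds hx] with y hy
      exact hC y hy
    rw [h1.fderiv_eq]
    have h2 : DifferentiableAt ℝ (fun y => fderiv ℝ X y (C y)) x := hd.clm_apply hCd
    rw [fderiv_fun_mul hYd h2]
    simp
    ring
  rw [e B hB hB'.differentiableAt, e A hA hA'.differentiableAt] at hz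
  rw [← hz, ← hx']
  ring

/-- A form `dZ - Y dX` which vanishes on `D` vanishes on `V1`. -/
lemma key {U : Set E} (hU : IsOpen U) {X Y Z : E → ℝ} (hX : ∀ x ∈ U, ContDiffAt ℝ ∞ X x)
    (hY : ∀ x ∈ U, ContDiffAt ℝ ∞ Y x) (hZ : ∀ x ∈ U, ContDiffAt ℝ ∞ Z x)
    (hD : ∀ x ∈ U, ∀ v ∈ DD x, fderiv ℝ Z x v = Y x * fderiv ℝ X x v) {x : E} (hx : x ∈ U) :
    fderiv ℝ Z x (V1 x) - Y x * fderiv ℝ X x (V1 x) = 0 := by
  by_contra hne
  set m : E → ℝ := fun x => fderiv ℝ Z x (V1 x) - Y x * fderiv ℝ X x (V1 x) with hm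
  have hmc : ContinuousOn m U := by
    intro y hy
    have hd : ∀ {F : E → ℝ}, ContDiffAt ℝ ∞ F y → ContinuousAt (fun z => fderiv ℝ F z (V1 z)) y := by
      intro F hF
      have := hF.fderiv_right (m := 1) (by norm_num; exact two_le_inf)
      have h1 : DifferentiableAt ℝ (fderiv ℝ F) y := this.differentiableAt (by norm_num)
      exact (h1.clm_apply (const_hasFDerivAt (V1 y) y).differentiableAt).continuousAt
    exact ((hd (hZ y hy)).sub ((hY y hy).continuousAt.mul (hd (hX y hy)))).continuousWithinAt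
  set U' := U ∩ m ⁻¹' {0}ᶜ with hU'
  have hUo : IsOpen U' := hmc.isOpen_inter_preimage hU isOpen_compl_singleton
  have hxU : x ∈ U' := ⟨hx, hne⟩
  have hA1 := fun y (hy : y ∈ U) => hD y hy _ (A1_mem y)
  have hB1 := fun y (hy : y ∈ U) => hD y hy _ (B1_mem y)
  have hA2 := fun y (hy : y ∈ U) => hD y hy _ (A2_mem y)
  have hB2 := fun y (hy : y ∈ U) => hD y hy _ (B2_mem y)
  have hall : ∀ y ∈ U', fderiv ℝ X y (A2 y) = 0 ∧ fderiv ℝ X y (B2 y) = 0 := by
    rintro y ⟨hy, hmy⟩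
    have r12 := mu_bracket hU hX hY hZ hA1 hB1 hy (A1_hasFDerivAt y) (const_hasFDerivAt (B1 y) y)
    have r13 := mu_bracket hU hX hY hZ hA1 hA2 hy (A1_hasFDerivAt y) (A2_hasFDerivAt y)
    have r14 := mu_bracket hU hX hY hZ hA1 hB2 hy (A1_hasFDerivAt y) (const_hasFDerivAt (B2 y) y)
    have r23 := mu_bracket hU hX hY hZ hB1 hA2 hy (const_hasFDerivAt (B1 y) y) (A2_hasFDerivAt y)
    have r24 := mu_bracket hU hX hY hZ hB1 hB2 hy (const_hasFDerivAt (B1 y) y)
      (const_hasFDerivAt (B2 y) y)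
    rw [br12] at r12
    rw [br13] at r13
    rw [br14] at r14
    rw [br23] at r23
    simp only [map_zero, mul_zero, sub_zero, _root_.zero_apply] at r13 r14 r23 r24
    have hmy' : fderiv ℝ Z y (V1 y) - Y y * fderiv ℝ X y (V1 y) ≠ 0 := hmy
    simp only [map_neg] at r12
    set p1 := fderiv ℝ X y (A1 y)
    set q1 := fderiv ℝ Y y (A1 y)
    set p2 := fderiv ℝ X y (B1 y)
    set q2 := fderiv ℝ Y y (B1 y)
    set p3 := fderiv ℝ X y (A2 y)
    set q3 := fderiv ℝ Y y (A2 y)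
    set p4 := fderiv ℝ X y (B2 y)
    set q4 := fderiv ℝ Y y (B2 y)
    constructor
    · apply (mul_eq_zero.1 (?_ : (fderiv ℝ Z y (V1 y) - Y y * fderiv ℝ X y (V1 y)) * p3 = 0)).resolve_left
        hmy'
      linear_combination (-p3) * r12 + p2 * r13 - p1 * r23
    · apply (mul_eq_zero.1 (?_ : (fderiv ℝ Z y (V1 y) - Y y * fderiv ℝ X y (V1 y)) * p4 = 0)).resolve_left
        hmy'
      linear_combination (-p4) * r12 + p2 * r14 - p1 * r24
  have hX' := kill hUo (fun y hy => hX y hy.1) (fun y hy => (hall y hy).1)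
    (fun y hy => (hall y hy).2) x hxU
  have hZ' := kill hUo (fun y hy => hZ y hy.1)
    (fun y hy => by rw [hA2 y hy.1, (hall y hy).1, mul_zero])
    (fun y hy => by rw [hB2 y hy.1, (hall y hy).2, mul_zero]) x hxU
  apply hne
  rw [hX', hZ']
  ring

theorem not_flat : ¬ GermDiffeomorphic DD 0 flatHyperbolic 0 := by
  rintro ⟨φ, h0, -, hs, hs', hD⟩
  have hsm : ∀ x ∈ φ.source, ContDiffAt ℝ ∞ φ x := fun x hx =>
    hs.contDiffAt (φ.open_source.mem_nhds hx)
  have hF : ∀ i, ∀ x ∈ φ.source, ContDiffAt ℝ ∞ (fun y => φ y i) x := fun i x hx =>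
    contDiffAt_pi.1 (hsm x hx) i
  have hfd : ∀ x ∈ φ.source, ∀ v i, fderiv ℝ φ x v i = fderiv ℝ (fun y => φ y i) x v := by
    intro x hx v i
    have h1 := ((hsm x hx).differentiableAt (by simp)).hasFDerivAt
    have h2 := hasFDerivAt_pi'.1 h1 i
    rw [h2.fderiv]
    rfl
  have hmem : ∀ x ∈ φ.source, ∀ v ∈ DD x, fderiv ℝ φ x v ∈ flatHyperbolic (φ x) := by
    intro x hx v hv
    rw [← hD x hx]
    exact Submodule.mem_map_of_mem hv
  have k1 := key φ.open_source (hF 0) (hF 1) (hF 2) (fun x hx v hv => by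
    have h := (hmem x hx v hv).1
    rw [hfd x hx, hfd x hx] at h
    linarith) h0
  have k2 := key φ.open_source (hF 3) (hF 4) (hF 5) (fun x hx v hv => by
    have h := (hmem x hx v hv).2
    rw [hfd x hx, hfd x hx] at h
    linarith) h0
  have hV : fderiv ℝ φ 0 (V1 0) ∈ flatHyperbolic (φ 0) := by
    constructor
    · rw [hfd 0 h0, hfd 0 h0]; exact k1
    · rw [hfd 0 h0, hfd 0 h0]; exact k2
  rw [← hD 0 h0] at hV
  obtain ⟨w, hw, hw2⟩ := hV
  -- injectivity of the derivative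
  have hinj : Function.Injective (fderiv ℝ φ 0) := by
    have h1 := ((hsm 0 h0).differentiableAt (by simp)).hasFDerivAt
    have h2 : HasFDerivAt φ.symm (fderiv ℝ φ.symm (φ 0)) (φ 0) := by
      have := hs'.contDiffAt (φ.open_target.mem_nhds (φ.map_source h0))
      exact (this.differentiableAt (by simp)).hasFDerivAt
    have h3 := h2.comp 0 h1
    have h4 : (φ.symm ∘ φ) =ᶠ[𝓝 0] id := by
      filter_upwards [φ.open_source.mem_nhds h0] with y hy
      exact φ.left_inv hy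
    have h5 := (h3.congr_of_eventuallyEq h4.symm).unique (hasFDerivAt_id 0)
    intro a b hab
    have h6 := congrArg (fun L : E →L[ℝ] E => L a) h5
    have h7 := congrArg (fun L : E →L[ℝ] E => L b) h5
    simp only [ContinuousLinearMap.comp_apply, ContinuousLinearMap.id_apply] at h6 h7
    rw [← h6, ← h7, hab]
  have : w = V1 0 := hinj hw2
  rw [this] at hw
  have := hw.1
  simp [V1] at this

end Pool.Agent.V11196.Hyp
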